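import Pool.Agent.V5helper53.ErdosPowers

set_option autoImplicit false

/-! # Sums of consecutive powers: the inequality for large `N`, and the finite check -/

namespace Pool.Agent.V5helper53.ErdosPowers

open Finset Real

/-- the lower bound for one term -/
theorem term_ge {N n j : ℕ} (hN : 200 ≤ N) (hj1 : 1 ≤ j) (hj : 4 * j ≤ N)
    (h : (n : ℝ) ≤ Real.log 2 * ((N : ℝ) - 3 / 2 - 1 / (12 * N))) :
    T (Real.log 2 * z (1 / N) j) * (1 / 2) ^ j ≤ (1 - (j : ℝ) / N) ^ n := by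
  have hN0 : (0 : ℝ) < N := by
    have : (200 : ℝ) ≤ N := by exact_mod_cast hN
    linarith
  have hN' : (200 : ℝ) ≤ N := by exact_mod_cast hN
  have hj' : 4 * (j : ℝ) ≤ N := by exact_mod_cast hj
  have hj0 : (1 : ℝ) ≤ j := by exact_mod_cast hj1
  set y : ℝ := (j : ℝ) / N with hy
  have hy0 : 0 < y := by positivity
  have hy1 : y ≤ 1 / 4 := by
    rw [hy, div_le_iff₀ hN0]; linarith
  have hL : 0 < Real.log 2 := Real.log_pos (by norm_num)
  set L := Real.log 2 with hLdef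
  set P : ℝ := y + y ^ 2 / 2 + y ^ 3 / 3 + y ^ 4 / 3 with hP
  have hP0 : 0 < P := by positivity
  have hlog := neg_log_le hy0.le hy1
  rw [← hP] at hlog
  have hz : z (1 / N) j ≤ j - ((N : ℝ) - 3 / 2 - 1 / (12 * N)) * P := by
    have : (j : ℝ) - ((N : ℝ) - 3 / 2 - 1 / (12 * N)) * P - z (1 / N) j =
        (j : ℝ) ^ 2 / (24 * (N : ℝ) ^ 3) + ((j : ℝ) ^ 4 / 2 + (j : ℝ) ^ 3 / 36) / (N : ℝ) ^ 4 +
          (j : ℝ) ^ 4 / (36 * (N : ℝ) ^ 5) := by
      rw [hP, hy, z]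
      field_simp
      ring
    have h2 : 0 ≤ (j : ℝ) ^ 2 / (24 * (N : ℝ) ^ 3) + ((j : ℝ) ^ 4 / 2 + (j : ℝ) ^ 3 / 36) / (N : ℝ) ^ 4 +
          (j : ℝ) ^ 4 / (36 * (N : ℝ) ^ 5) := by positivity
    linarith
  have h1y : 0 < 1 - y := by linarith
  have e1 : (1 - y) ^ n = Real.exp (n * Real.log (1 - y)) := by
    rw [mul_comm, ← Real.rpow_def_of_pos h1y, Real.rpow_natCast]
  have e2 : (1 / 2 : ℝ) ^ j = Real.exp (-(L * j)) := by
    rw [Real.exp_neg, hLdef, ← Real.rpow_def_of_pos (by norm_num : (0 : ℝ) < 2), Real.rpow_natCast,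
      one_div, inv_pow]
  rw [e1, e2]
  have e3 : T (L * z (1 / N) j) ≤ Real.exp (L * j + n * Real.log (1 - y)) := by
    refine (T_le_exp _).trans (Real.exp_le_exp.mpr ?_)
    have a : (n : ℝ) * P ≤ L * (((N : ℝ) - 3 / 2 - 1 / (12 * N)) * P) := by nlinarith
    have b : -(n * P) ≤ (n : ℝ) * Real.log (1 - y) := by
      have : (0 : ℝ) ≤ n := Nat.cast_nonneg n
      nlinarith
    have c := mul_le_mul_of_nonneg_left hz hL.le
    nlinarith
  have e4 : Real.exp (n * Real.log (1 - y)) = Real.exp (L * j + n * Real.log (1 - y)) * Real.exp (-(L * j)) := by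
    rw [← Real.exp_add]; congr 1; ring
  rw [e4]
  exact mul_le_mul_of_nonneg_right e3 (Real.exp_pos _).le

theorem T_nonpos {N j : ℕ} (hN : 200 ≤ N) (hj : N < 4 * j) :
    T (Real.log 2 * z (1 / N) j) * (1 / 2 : ℝ) ^ j ≤ 0 := by
  have hN0 : (0 : ℝ) < N := by
    have : (200 : ℝ) ≤ N := by exact_mod_cast hN
    linarith
  have hN' : (200 : ℝ) ≤ N := by exact_mod_cast hN
  have hj' : (N : ℝ) < 4 * j := by exact_mod_cast hj
  have hj50 : (50 : ℝ) < j := by linarith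
  have hz : z (1 / N) j ≤ -4 := by
    have t1 : (3 * (j : ℝ) - (j : ℝ) ^ 2) / 2 * (1 / N) ≤ -4 := by
      rw [mul_one_div, div_le_iff₀ hN0]
      nlinarith
    have t2 : (-(j : ℝ) ^ 3 / 3 + 3 / 4 * (j : ℝ) ^ 2 + j / 12) * (1 / N : ℝ) ^ 2 ≤ 0 := by
      apply mul_nonpos_of_nonpos_of_nonneg _ (by positivity)
      nlinarith [mul_pos (by linarith : (0 : ℝ) < j) (by linarith : (0 : ℝ) < (j : ℝ) - 50)]
    have t3 : (-(j : ℝ) ^ 4 / 3 + (j : ℝ) ^ 3 / 2) * (1 / N : ℝ) ^ 3 ≤ 0 := by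
      apply mul_nonpos_of_nonpos_of_nonneg _ (by positivity)
      have : 0 < (j : ℝ) ^ 3 := by positivity
      nlinarith
    rw [z]; linarith
  have hL : 0.69 < Real.log 2 := by have := Real.log_two_gt_d9; linarith
  have h2 : Real.log 2 * z (1 / N) j ≤ -2 := by nlinarith
  have h3 := T_mono h2
  have h4 : T (-2) ≤ 0 := by norm_num [T]
  exact mul_nonpos_of_nonpos_of_nonneg (h3.trans h4) (by positivity)

/-- the bound for `n` -/
theorem n_le {N n : ℕ} (hN : 200 ≤ N) (h : 1 / 2 < (1 - 1 / ((N : ℝ) - 1)) ^ n) :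
    (n : ℝ) ≤ Real.log 2 * ((N : ℝ) - 3 / 2 - 1 / (12 * N)) := by
  have hN' : (200 : ℝ) ≤ N := by exact_mod_cast hN
  have hM : (1 : ℝ) ≤ (N : ℝ) - 3 / 2 := by linarith
  have hlr := log_ratio_ge hM
  set M : ℝ := (N : ℝ) - 3 / 2 with hMdef
  have hMp : 0 < M := by linarith
  have hr : 1 - 1 / ((N : ℝ) - 1) = (M - 1 / 2) / (M + 1 / 2) := by
    have e1 : M + 1 / 2 = (N : ℝ) - 1 := by rw [hMdef]; ring
    have e2 : M - 1 / 2 = (N : ℝ) - 1 - 1 := by rw [hMdef]; ring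
    have : (N : ℝ) - 1 ≠ 0 := by linarith
    rw [e1, e2]
    field_simp
  have hpos : 0 < (M - 1 / 2) / (M + 1 / 2) := div_pos (by linarith) (by linarith)
  rw [hr] at h
  have h1 := Real.log_lt_log (by norm_num) h
  rw [Real.log_pow, Real.log_div (x := M - 1 / 2) (by linarith) (by linarith)] at h1
  have h2 : Real.log (1 / 2) = -Real.log 2 := by rw [one_div, Real.log_inv]
  rw [h2] at h1
  have hn : (0 : ℝ) ≤ n := Nat.cast_nonneg n
  have h3 : (n : ℝ) * (1 / M + 1 / (12 * M ^ 3)) < Real.log 2 := by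
    have := mul_le_mul_of_nonneg_left hlr hn
    nlinarith
  have hL : 0 < Real.log 2 := Real.log_pos (by norm_num)
  -- n < L * 12 M^3 / (12 M^2 + 1)
  have h4 : (n : ℝ) * (12 * M ^ 2 + 1) < Real.log 2 * (12 * M ^ 3) := by
    have e : (n : ℝ) * (12 * M ^ 2 + 1) = (n : ℝ) * (1 / M + 1 / (12 * M ^ 3)) * (12 * M ^ 3) := by
      field_simp
    rw [e]
    exact mul_lt_mul_of_pos_right h3 (by positivity)
  have h5 : 12 * M ^ 3 ≤ (M - 1 / (12 * N)) * (12 * M ^ 2 + 1) := by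
    have hNM : (N : ℝ) = M + 3 / 2 := by rw [hMdef]; ring
    have hNp : 0 < (N : ℝ) := by linarith
    have : (M - 1 / (12 * N)) * (12 * M ^ 2 + 1) - 12 * M ^ 3 = (12 * N * M - (12 * M ^ 2 + 1)) / (12 * N) := by
      field_simp
      ring
    have h6 : 0 ≤ (12 * N * M - (12 * M ^ 2 + 1)) / (12 * (N : ℝ)) := by
      apply div_nonneg _ (by positivity)
      rw [hNM]; nlinarith
    linarith
  have h7 : (n : ℝ) * (12 * M ^ 2 + 1) ≤ Real.log 2 * (M - 1 / (12 * N)) * (12 * M ^ 2 + 1) := by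
    have := mul_le_mul_of_nonneg_left h5 hL.le
    nlinarith
  exact le_of_mul_le_mul_right h7 (by positivity)

theorem main_large {N n : ℕ} (hN : 200 ≤ N) (h : 1 / 2 < (1 - 1 / ((N : ℝ) - 1)) ^ n) :
    1 < ∑ j ∈ Icc 1 (N - 1), (1 - (j : ℝ) / N) ^ n := by
  have hN' : (200 : ℝ) ≤ N := by exact_mod_cast hN
  have hn := n_le hN h
  have hs := hasSum_T (Real.log 2) (1 / N)
  have hle : 1 + K (Real.log 2) (1 / N) ≤
      ∑ j ∈ range (N / 4 + 1), T (Real.log 2 * z (1 / N) j) * (1 / 2 : ℝ) ^ j := by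
    have := sum_le_hasSum (range (N / 4 + 1)) (fun j hj => ?_) hs.neg
    · rw [Finset.sum_neg_distrib] at this; linarith
    · rw [Left.nonneg_neg_iff]
      apply T_nonpos hN
      simp only [mem_range] at hj
      omega
  rw [Finset.sum_range_succ'] at hle
  have h0 : T (Real.log 2 * z (1 / N) ((0 : ℕ) : ℝ)) * (1 / 2 : ℝ) ^ 0 = 1 := by
    simp [T, z]
  rw [h0] at hle
  have hK : 1 < K (Real.log 2) (1 / N) := by
    apply K_gt (by positivity) _ Real.log_two_gt_d9 Real.log_two_lt_d9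
    apply one_div_le_one_div_of_le (by norm_num) hN'
  have h2 : ∑ j ∈ range (N / 4), T (Real.log 2 * z (1 / N) ((j + 1 : ℕ) : ℝ)) * (1 / 2 : ℝ) ^ (j + 1) ≤
      ∑ j ∈ range (N / 4), (1 - ((j + 1 : ℕ) : ℝ) / N) ^ n := by
    apply Finset.sum_le_sum
    intro j hj
    simp only [mem_range] at hj
    exact term_ge hN (by omega) (by omega) hn
  have h3 : ∑ j ∈ range (N / 4), (1 - ((j + 1 : ℕ) : ℝ) / N) ^ n ≤
      ∑ j ∈ Icc 1 (N - 1), (1 - (j : ℝ) / N) ^ n := by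
    rw [Finset.range_eq_Ico, Finset.sum_Ico_add' (fun j : ℕ => (1 - (j : ℝ) / N) ^ n) 0 (N / 4) 1]
    apply Finset.sum_le_sum_of_subset_of_nonneg
    · intro j hj
      simp only [mem_Ico, mem_Icc] at hj ⊢
      omega
    · intro j hj _
      simp only [mem_Icc] at hj
      apply pow_nonneg
      have : (j : ℝ) ≤ N := by exact_mod_cast (by omega : j ≤ N)
      rw [sub_nonneg, div_le_one (by linarith)]
      exact this
  linarith

/-- the large case, for natural numbers -/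
theorem large_nat {m n : ℕ} (hm : 199 ≤ m) (h : 1 / 2 < (1 - 1 / (m : ℝ)) ^ n) :
    (m + 1) ^ n < ∑ i ∈ Icc 1 m, i ^ n := by
  have h1 := main_large (N := m + 1) (n := n) (by omega) (by push_cast; simpa using h)
  have hp : (0 : ℝ) < ((m + 1 : ℕ) : ℝ) := by positivity
  have h2 : ∑ j ∈ Icc 1 (m + 1 - 1), (1 - (j : ℝ) / ((m + 1 : ℕ) : ℝ)) ^ n =
      (∑ i ∈ Icc 1 m, (i : ℝ) ^ n) / ((m + 1 : ℕ) : ℝ) ^ n := by
    rw [Finset.sum_div, Nat.add_sub_cancel]
    refine Finset.sum_nbij' (fun j => m + 1 - j) (fun j => m + 1 - j) ?_ ?_ ?_ ?_ ?_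
    · intro j hj; simp only [mem_Icc] at hj ⊢; omega
    · intro j hj; simp only [mem_Icc] at hj ⊢; omega
    · intro j hj; simp only [mem_Icc] at hj; omega
    · intro j hj; simp only [mem_Icc] at hj; omega
    · intro j hj
      simp only [mem_Icc] at hj
      rw [← div_pow]
      congr 1
      rw [Nat.cast_sub (by omega)]
      field_simp
  rw [h2, lt_div_iff₀ (by positivity), one_mul] at h1
  exact_mod_cast h1

/-- the sum of powers -/
def S (n : ℕ) : ℕ → ℕ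
  | 0 => 0
  | k + 1 => S n k + (k + 1) ^ n

theorem S_eq (n m : ℕ) : S n m = ∑ i ∈ Icc 1 m, i ^ n := by
  induction m with
  | zero => simp [S]
  | succ k ih => rw [S, ih, Finset.sum_Icc_succ_top (by omega)]

/-- the largest `n` for a given `m` -/
def t (m : ℕ) : ℕ := 693147 * (2 * m - 1) / 2000000

/-- the finite check -/
def chk : ℕ → Bool
  | 0 => true
  | k + 1 => chk k && (decide (k + 1 < 3) || (decide (2 * k ^ (t (k + 1) + 1) ≤ (k + 1) ^ (t (k + 1) + 1)) &&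
      decide ((k + 2) ^ t (k + 1) < S (t (k + 1)) (k + 1))))

theorem chk_spec : ∀ (M m : ℕ), chk M = true → m < M → 2 ≤ m →
    2 * m ^ (t (m + 1) + 1) ≤ (m + 1) ^ (t (m + 1) + 1) ∧ (m + 2) ^ t (m + 1) < S (t (m + 1)) (m + 1) := by
  intro M
  induction M with
  | zero => intro m _ h; omega
  | succ k ih =>
    intro m hc hm h2
    rw [chk, Bool.and_eq_true] at hc
    rcases Nat.lt_succ_iff_lt_or_eq.mp hm with h | h
    · exact ih m hc.1 h h2
    · subst h
      have := hc.2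
      simp only [Bool.or_eq_true, Bool.and_eq_true, decide_eq_true_eq] at this
      rcases this with h3 | h3
      · omega
      · exact h3

theorem chk_198 : chk 198 = true := by
  decide +kernel

theorem small_nat {m n : ℕ} (hm3 : 3 ≤ m) (hm : m ≤ 198) (h : m ^ n < 2 * (m - 1) ^ n) :
    (m + 1) ^ n < ∑ i ∈ Icc 1 m, i ^ n := by
  obtain ⟨k, rfl⟩ : ∃ k, m = k + 1 := ⟨m - 1, by omega⟩
  obtain ⟨h1, h2⟩ := chk_spec 198 k chk_198 (by omega) (by omega)
  rw [Nat.add_sub_cancel] at h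
  set s := t (k + 1) with hs
  have hn : n ≤ s := by
    by_contra hcon
    push Not at hcon
    obtain ⟨d, rfl⟩ : ∃ d, n = s + 1 + d := ⟨n - (s + 1), by omega⟩
    have h3 : k ^ d ≤ (k + 1) ^ d := Nat.pow_le_pow_left (by omega) d
    have h4 : 2 * k ^ (s + 1 + d) ≤ (k + 1) ^ (s + 1 + d) := by
      rw [pow_add k, pow_add (k + 1), ← mul_assoc]
      exact Nat.mul_le_mul h1 h3
    omega
  obtain ⟨d, hd⟩ := Nat.exists_eq_add_of_le hn
  rw [S_eq, hd] at h2
  by_contra hcon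
  push Not at hcon
  have h5 : ∑ i ∈ Icc 1 (k + 1), i ^ (n + d) ≤ (k + 2) ^ d * ∑ i ∈ Icc 1 (k + 1), i ^ n := by
    rw [Finset.mul_sum]
    apply Finset.sum_le_sum
    intro i hi
    simp only [mem_Icc] at hi
    rw [pow_add, mul_comm]
    exact Nat.mul_le_mul_right _ (Nat.pow_le_pow_left (by omega) d)
  have h6 : (k + 2) ^ d * ∑ i ∈ Icc 1 (k + 1), i ^ n ≤ (k + 2) ^ (n + d) := by
    rw [pow_add, mul_comm]
    exact Nat.mul_le_mul_right _ hcon
  omega

/-- the easy inequality -/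
theorem easy {m n : ℕ} (hm : 3 ≤ m) (h : (1 - 1 / ((m : ℝ) - 1)) ^ n < 1 / 2) :
    ∑ i ∈ Finset.Icc 1 (m - 2), i ^ n < (m - 1) ^ n := by
  have hm' : (3 : ℝ) ≤ m := by exact_mod_cast hm
  -- `2 i ^ n ≤ (i + 1) ^ n` for `i + 1 ≤ m - 1`
  have h1 : ∀ i : ℕ, i + 1 ≤ m - 1 → 2 * i ^ n ≤ (i + 1) ^ n := by
    intro i hi
    have hi' : (i : ℝ) + 1 ≤ (m : ℝ) - 1 := by
      have : ((i + 1 : ℕ) : ℝ) ≤ ((m - 1 : ℕ) : ℝ) := by exact_mod_cast hi
      rw [Nat.cast_sub (by omega)] at this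
      push_cast at this
      linarith
    have hp : (0 : ℝ) < (i : ℝ) + 1 := by positivity
    have h2 : (i : ℝ) / (i + 1) ≤ 1 - 1 / ((m : ℝ) - 1) := by
      have : (i : ℝ) / (i + 1) = 1 - 1 / ((i : ℝ) + 1) := by field_simp; ring
      rw [this]
      have := one_div_le_one_div_of_le hp hi'
      linarith
    have h3 : ((i : ℝ) / (i + 1)) ^ n ≤ 1 / 2 :=
      (pow_le_pow_left₀ (by positivity) h2 n).trans h.le
    rw [div_pow, div_le_iff₀ (by positivity)] at h3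
    have h4 : 2 * (i : ℝ) ^ n ≤ ((i : ℝ) + 1) ^ n := by linarith
    exact_mod_cast h4
  have h2 : ∀ k : ℕ, k + 1 ≤ m - 1 → ∑ i ∈ Icc 1 k, i ^ n < (k + 1) ^ n := by
    intro k
    induction k with
    | zero => intro _; simp
    | succ k ih =>
      intro hk
      rw [Finset.sum_Icc_succ_top (by omega)]
      have a := ih (by omega)
      have b := h1 (k + 1) hk
      omega
  have h3 := h2 (m - 2) (by omega)
  have : m - 2 + 1 = m - 1 := by omega
  rwa [this] at h3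

theorem final : ∀ m n : ℕ, 1 ≤ n → 2 ≤ m →
      (1 - 1 / (m : ℝ)) ^ n > 1 / 2 →
      (1 - 1 / ((m : ℝ) - 1)) ^ n < 1 / 2 →
      (m - 1) ^ n > ∑ i ∈ Finset.Icc 1 (m - 2), i ^ n ∧
      (m + 1) ^ n < ∑ i ∈ Finset.Icc 1 m, i ^ n := by
  intro m n hn hm h1 h2
  have hm3 : 3 ≤ m := by
    by_contra hcon
    have : m = 2 := by omega
    subst this
    have h3 : (1 - 1 / ((2 : ℕ) : ℝ)) ^ n ≤ 1 / 2 := by
      have : (1 - 1 / ((2 : ℕ) : ℝ)) = 1 / 2 := by norm_num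
      rw [this]
      exact pow_le_of_le_one (by norm_num) (by norm_num) (by omega)
    linarith
  refine ⟨easy hm3 h2, ?_⟩
  rcases le_or_gt 199 m with h | h
  · exact large_nat h h1
  · apply small_nat hm3 (by omega)
    have hp : (0 : ℝ) < m := by positivity
    have h3 : 1 - 1 / (m : ℝ) = ((m : ℝ) - 1) / m := by field_simp
    rw [h3, div_pow, gt_iff_lt, lt_div_iff₀ (by positivity)] at h1
    have h4 : (m : ℝ) ^ n < 2 * ((m - 1 : ℕ) : ℝ) ^ n := by
      rw [Nat.cast_sub (by omega)]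
      push_cast
      linarith
    exact_mod_cast h4

end Pool.Agent.V5helper53.ErdosPowers
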