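import Mathlib

set_option autoImplicit false

/-! # Sums of consecutive powers: the analytic part -/

namespace Pool.Agent.V5helper53.ErdosPowers

open Finset Real

/-- the moments of the geometric distribution -/
noncomputable def e (k : ℕ) : ℝ := ∑' j : ℕ, (j : ℝ) ^ k * (1 / 2) ^ j

theorem hasSum_e (k : ℕ) : HasSum (fun j : ℕ => (j : ℝ) ^ k * (1 / 2 : ℝ) ^ j) (e k) :=
  (summable_pow_mul_geometric_of_norm_lt_one k (by norm_num)).hasSum

theorem e_zero : e 0 = 2 := by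
  have := tsum_geometric_of_lt_one (r := (1 / 2 : ℝ)) (by norm_num) (by norm_num)
  simp only [e, pow_zero, one_mul]
  rw [this]; norm_num

theorem e_succ (k : ℕ) : e (k + 1) = ∑ i ∈ range (k + 1), ((k + 1).choose i : ℝ) * e i := by
  have h1 := hasSum_e (k + 1)
  have h2 : HasSum (fun j : ℕ => ((j : ℝ) + 1) ^ (k + 1) * (1 / 2 : ℝ) ^ (j + 1)) (e (k + 1)) := by
    have := (hasSum_nat_add_iff' 1).mpr h1
    simpa using this
  have h3 : HasSum (fun j : ℕ => ((j : ℝ) + 1) ^ (k + 1) * (1 / 2 : ℝ) ^ (j + 1))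
      (∑ i ∈ range (k + 2), ((k + 1).choose i : ℝ) * e i * (1 / 2)) := by
    have : (fun j : ℕ => ((j : ℝ) + 1) ^ (k + 1) * (1 / 2 : ℝ) ^ (j + 1)) =
        fun j : ℕ => ∑ i ∈ range (k + 2), ((k + 1).choose i : ℝ) * ((j : ℝ) ^ i * (1 / 2) ^ j) * (1 / 2) := by
      funext j
      rw [add_pow, Finset.sum_mul]
      refine Finset.sum_congr rfl fun i _ => ?_
      rw [one_pow, pow_succ]; ring
    rw [this]
    exact hasSum_sum fun i _ => ((hasSum_e i).mul_left _).mul_right _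
  have h4 := h2.unique h3
  rw [Finset.sum_range_succ, Nat.choose_self] at h4
  rw [← Finset.sum_mul] at h4
  push_cast at h4
  linarith

theorem e1 : e 1 = 2 := by
  rw [e_succ]; simp [Finset.sum_range_succ, e_zero]
theorem e2 : e 2 = 6 := by
  rw [e_succ]; norm_num [Finset.sum_range_succ, e_zero, e1, Nat.choose]
theorem e3 : e 3 = 26 := by
  rw [e_succ]; norm_num [Finset.sum_range_succ, e_zero, e1, e2, Nat.choose]
theorem e4 : e 4 = 150 := by
  rw [e_succ]; norm_num [Finset.sum_range_succ, e_zero, e1, e2, e3, Nat.choose]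
theorem e5 : e 5 = 1082 := by
  rw [e_succ]; norm_num [Finset.sum_range_succ, e_zero, e1, e2, e3, e4, Nat.choose]
theorem e6 : e 6 = 9366 := by
  rw [e_succ]; norm_num [Finset.sum_range_succ, e_zero, e1, e2, e3, e4, e5, Nat.choose]
theorem e7 : e 7 = 94586 := by
  rw [e_succ]; norm_num [Finset.sum_range_succ, e_zero, e1, e2, e3, e4, e5, e6, Nat.choose]
theorem e8 : e 8 = 1091670 := by
  rw [e_succ]; norm_num [Finset.sum_range_succ, e_zero, e1, e2, e3, e4, e5, e6, e7, Nat.choose]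
theorem e9 : e 9 = 14174522 := by
  rw [e_succ]; norm_num [Finset.sum_range_succ, e_zero, e1, e2, e3, e4, e5, e6, e7, e8, Nat.choose]
theorem e10 : e 10 = 204495126 := by
  rw [e_succ]; norm_num [Finset.sum_range_succ, e_zero, e1, e2, e3, e4, e5, e6, e7, e8, e9, Nat.choose]
theorem e11 : e 11 = 3245265146 := by
  rw [e_succ]
  norm_num [Finset.sum_range_succ, e_zero, e1, e2, e3, e4, e5, e6, e7, e8, e9, e10, Nat.choose]
theorem e12 : e 12 = 56183135190 := by
  rw [e_succ]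
  norm_num [Finset.sum_range_succ, e_zero, e1, e2, e3, e4, e5, e6, e7, e8, e9, e10, e11, Nat.choose]

/-- the cubic Taylor polynomial of `exp` -/
noncomputable def T (x : ℝ) : ℝ := 1 + x + x ^ 2 / 2 + x ^ 3 / 6

/-- the exponent (divided by `log 2`), for `w = 1 / N` -/
noncomputable def z (w j : ℝ) : ℝ := (3 * j - j ^ 2) / 2 * w + (-j ^ 3 / 3 + 3 / 4 * j ^ 2 + j / 12) * w ^ 2 +
  (-j ^ 4 / 3 + j ^ 3 / 2) * w ^ 3

/-- the value of the series -/
noncomputable def K (L w : ℝ) : ℝ := 1 + (-4 * L + 6 * L ^ 2) * w ^ 2 + (-37 * L + 78 * L ^ 2 - 62 * L ^ 3) * w ^ 3 +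
  (2303 / 2 * L ^ 2 - 1605 * L ^ 3) * w ^ 4 + (6989 * L ^ 2 - 74541 / 2 * L ^ 3) * w ^ 5 +
  (184219 / 4 * L ^ 2 - 5986037 / 12 * L ^ 3) * w ^ 6 - 36430835 / 6 * L ^ 3 * w ^ 7 -
  509095949 / 12 * L ^ 3 * w ^ 8 - 57215926829 / 216 * L ^ 3 * w ^ 9

theorem hasSum_key {f g : ℕ → ℝ} {a b : ℝ} (h : HasSum g b) (h1 : ∀ j, f j = g j) (h2 : a = b) :
    HasSum f a := by
  rw [h2, funext h1]; exact h

theorem hasDeriv_key {f g : ℝ → ℝ} {a b x : ℝ} (h : HasDerivAt g b x) (h1 : ∀ j, f j = g j)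
    (h2 : a = b) : HasDerivAt f a x := by
  rw [h2, funext h1]; exact h

theorem hasSum_T (L w : ℝ) :
    HasSum (fun j : ℕ => T (L * z w j) * (1 / 2 : ℝ) ^ j) (1 + K L w) := by
  have h := ((hasSum_e 0).mul_left (1 : ℝ)).add <|
    ((hasSum_e 1).mul_left ((3/2) * w^1 * L^1 + (1/12) * w^2 * L^1)).add <|
    ((hasSum_e 2).mul_left ((-1/2) * w^1 * L^1 + (3/4) * w^2 * L^1 + (9/8) * w^2 * L^2 + (1/8) * w^3 * L^2 + (1/288) * w^4 * L^2)).add <|
    ((hasSum_e 3).mul_left ((-1/3) * w^2 * L^1 + (-3/4) * w^2 * L^2 + (1/2) * w^3 * L^1 + (13/12) * w^3 * L^2 + (9/16) * w^3 * L^3 + (1/16) * w^4 * L^2 + (3/32) * w^4 * L^3 + (1/192) * w^5 * L^3 + (1/10368) * w^6 * L^3)).add <|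
    ((hasSum_e 4).mul_left ((1/8) * w^2 * L^2 + (-1/3) * w^3 * L^1 + (-7/8) * w^3 * L^2 + (-9/16) * w^3 * L^3 + (289/288) * w^4 * L^2 + (25/32) * w^4 * L^3 + (1/24) * w^5 * L^2 + (53/576) * w^5 * L^3 + (1/384) * w^6 * L^3)).add <|
    ((hasSum_e 5).mul_left ((1/6) * w^3 * L^2 + (3/16) * w^3 * L^3 + (-1) * w^4 * L^2 + (-89/96) * w^4 * L^3 + (25/72) * w^5 * L^2 + (175/192) * w^5 * L^3 + (293/3456) * w^6 * L^3 + (1/576) * w^7 * L^3)).add <|
    ((hasSum_e 6).mul_left ((-1/48) * w^3 * L^3 + (2/9) * w^4 * L^2 + (11/32) * w^4 * L^3 + (-5/12) * w^5 * L^2 + (-721/576) * w^5 * L^3 + (1/8) * w^6 * L^2 + (211/384) * w^6 * L^3 + (13/432) * w^7 * L^3)).add <|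
    ((hasSum_e 7).mul_left ((-1/24) * w^4 * L^3 + (1/9) * w^5 * L^2 + (25/48) * w^5 * L^3 + (-1/6) * w^6 * L^2 + (-767/864) * w^6 * L^3 + (169/576) * w^7 * L^3 + (1/96) * w^8 * L^3)).add <|
    ((hasSum_e 8).mul_left ((-5/72) * w^5 * L^3 + (1/18) * w^6 * L^2 + (5/12) * w^6 * L^3 + (-451/864) * w^7 * L^3 + (23/288) * w^8 * L^3)).add <|
    ((hasSum_e 9).mul_left ((-5/81) * w^6 * L^3 + (5/18) * w^7 * L^3 + (-35/216) * w^8 * L^3 + (1/48) * w^9 * L^3)).add <|
    ((hasSum_e 10).mul_left ((-5/108) * w^7 * L^3 + (7/72) * w^8 * L^3 + (-1/24) * w^9 * L^3)).add <|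
    ((hasSum_e 11).mul_left ((-1/54) * w^8 * L^3 + (1/36) * w^9 * L^3)).add
    ((hasSum_e 12).mul_left ((-1/162) * w^9 * L^3))
  refine hasSum_key h (fun j => ?_) ?_
  · simp only [T, z]
    ring
  · rw [e_zero, e1, e2, e3, e4, e5, e6, e7, e8, e9, e10, e11, e12]
    simp only [K]
    ring

theorem K_gt {w L : ℝ} (hw : 0 < w) (hw' : w ≤ 1 / 200) (hL : 0.6931471803 < L)
    (hL' : L < 0.6931471808) : 1 < K L w := by
  have h2l : 0.48045301 < L ^ 2 := by nlinarith
  have h2u : L ^ 2 < 0.48045302 := by nlinarith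
  have h3l : 0.33302465 < L ^ 3 := by nlinarith
  have h3u : L ^ 3 < 0.33302466 := by nlinarith
  set A := L ^ 2 with hA
  set B := L ^ 3 with hB
  have w2 : 0 < w ^ 2 := by positivity
  have key : 0 < (-4 * L + 6 * A) + (-37 * L + 78 * A - 62 * B) * w +
      (2303 / 2 * A - 1605 * B) * w ^ 2 + (6989 * A - 74541 / 2 * B) * w ^ 3 +
      (184219 / 4 * A - 5986037 / 12 * B) * w ^ 4 - 36430835 / 6 * B * w ^ 5 -
      509095949 / 12 * B * w ^ 6 - 57215926829 / 216 * B * w ^ 7 := by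
    have w3 : w ^ 3 ≤ (1 / 200) ^ 3 := pow_le_pow_left₀ hw.le hw' 3
    have w4 : w ^ 4 ≤ (1 / 200) ^ 4 := pow_le_pow_left₀ hw.le hw' 4
    have w5 : w ^ 5 ≤ (1 / 200) ^ 5 := pow_le_pow_left₀ hw.le hw' 5
    have w6 : w ^ 6 ≤ (1 / 200) ^ 6 := pow_le_pow_left₀ hw.le hw' 6
    have w7 : w ^ 7 ≤ (1 / 200) ^ 7 := pow_le_pow_left₀ hw.le hw' 7
    have p3 : 0 < w ^ 3 := by positivity
    have p4 : 0 < w ^ 4 := by positivity
    have p5 : 0 < w ^ 5 := by positivity
    have p6 : 0 < w ^ 6 := by positivity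
    have p7 : 0 < w ^ 7 := by positivity
    have t0 : 0.10 < -4 * L + 6 * A := by linarith
    have t1 : -8.83 * (1 / 200) ≤ (-37 * L + 78 * A - 62 * B) * w := by
      have : -8.83 ≤ -37 * L + 78 * A - 62 * B := by linarith
      nlinarith
    have t2 : 0 ≤ (2303 / 2 * A - 1605 * B) * w ^ 2 :=
      mul_nonneg (by linarith) w2.le
    have t3 : -9056 * (1 / 200) ^ 3 ≤ (6989 * A - 74541 / 2 * B) * w ^ 3 := by
      have : -9056 ≤ 6989 * A - 74541 / 2 * B := by linarith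
      nlinarith
    have t4 : -144001 * (1 / 200) ^ 4 ≤ (184219 / 4 * A - 5986037 / 12 * B) * w ^ 4 := by
      have : -144001 ≤ 184219 / 4 * A - 5986037 / 12 * B := by linarith
      nlinarith
    have t5 : 36430835 / 6 * B * w ^ 5 ≤ 36430835 / 6 * 1 * (1 / 200) ^ 5 := by
      gcongr; linarith
    have t6 : 509095949 / 12 * B * w ^ 6 ≤ 509095949 / 12 * 1 * (1 / 200) ^ 6 := by
      gcongr; linarith
    have t7 : 57215926829 / 216 * B * w ^ 7 ≤ 57215926829 / 216 * 1 * (1 / 200) ^ 7 := by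
      gcongr; linarith
    norm_num at t1 t3 t4 t5 t6 t7 ⊢
    linarith
  have : K L w = 1 + w ^ 2 * ((-4 * L + 6 * A) + (-37 * L + 78 * A - 62 * B) * w +
      (2303 / 2 * A - 1605 * B) * w ^ 2 + (6989 * A - 74541 / 2 * B) * w ^ 3 +
      (184219 / 4 * A - 5986037 / 12 * B) * w ^ 4 - 36430835 / 6 * B * w ^ 5 -
      509095949 / 12 * B * w ^ 6 - 57215926829 / 216 * B * w ^ 7) := by
    simp only [K, hA, hB]; ring
  rw [this]
  have := mul_pos w2 key
  linarith

theorem T_le_exp (x : ℝ) : T x ≤ Real.exp x := by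
  have hd : ∀ x : ℝ, HasDerivAt (fun x => Real.exp x - T x) (Real.exp x - (1 + x + x ^ 2 / 2)) x := by
    intro x
    have a := (hasDerivAt_id x)
    have b := (hasDerivAt_pow 2 x).div_const 2
    have c := (hasDerivAt_pow 3 x).div_const 6
    have h1 := (Real.hasDerivAt_exp x).sub ((((hasDerivAt_const x (1 : ℝ)).add a).add b).add c)
    refine hasDeriv_key h1 (fun y => ?_) ?_
    · simp [T]
    · norm_num; ring
  have hq : ∀ x : ℝ, 0 ≤ x → 1 + x + x ^ 2 / 2 ≤ Real.exp x := fun x hx =>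
    Real.quadratic_le_exp_of_nonneg hx
  have hd2 : ∀ x : ℝ, HasDerivAt (fun x => Real.exp x - (1 + x + x ^ 2 / 2)) (Real.exp x - (1 + x)) x := by
    intro x
    have a := (hasDerivAt_id x)
    have b := (hasDerivAt_pow 2 x).div_const 2
    have h1 := (Real.hasDerivAt_exp x).sub (((hasDerivAt_const x (1 : ℝ)).add a).add b)
    refine hasDeriv_key h1 (fun y => ?_) ?_
    · simp
    · norm_num
  have hm : Monotone (fun x : ℝ => Real.exp x - (1 + x + x ^ 2 / 2)) := by
    apply monotone_of_deriv_nonneg (fun x => (hd2 x).differentiableAt)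
    intro x
    rw [(hd2 x).deriv]
    linarith [Real.add_one_le_exp x]
  have hq' : ∀ x : ℝ, x ≤ 0 → Real.exp x - (1 + x + x ^ 2 / 2) ≤ 0 := by
    intro x hx
    have := hm hx
    simpa using this
  rcases le_total 0 x with hx | hx
  · have hmono : MonotoneOn (fun x => Real.exp x - T x) (Set.Ici 0) := by
      apply monotoneOn_of_deriv_nonneg (convex_Ici 0)
      · exact fun x _ => (hd x).continuousAt.continuousWithinAt
      · exact fun x _ => (hd x).differentiableAt.differentiableWithinAt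
      · intro x hx'
        rw [interior_Ici] at hx'
        rw [(hd x).deriv]
        linarith [hq x (le_of_lt hx')]
    have := hmono (Set.mem_Ici.mpr le_rfl) (Set.mem_Ici.mpr hx) hx
    simp [T] at this
    simpa [T] using this
  · have hanti : AntitoneOn (fun x => Real.exp x - T x) (Set.Iic 0) := by
      apply antitoneOn_of_deriv_nonpos (convex_Iic 0)
      · exact fun x _ => (hd x).continuousAt.continuousWithinAt
      · exact fun x _ => (hd x).differentiableAt.differentiableWithinAt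
      · intro x hx'
        rw [interior_Iic] at hx'
        rw [(hd x).deriv]
        exact hq' x (le_of_lt hx')
    have := hanti (Set.mem_Iic.mpr hx) (Set.mem_Iic.mpr le_rfl) hx
    simp [T] at this
    simpa [T] using this

theorem T_mono : Monotone T := by
  intro x y hxy
  simp only [T]
  nlinarith [sq_nonneg (x + y), sq_nonneg (x - y), sq_nonneg (x + 1), sq_nonneg (y + 1),
    mul_nonneg (sub_nonneg.mpr hxy) (sq_nonneg (x + y + 2)), mul_nonneg (sub_nonneg.mpr hxy) (sq_nonneg (x + 1)),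
    mul_nonneg (sub_nonneg.mpr hxy) (sq_nonneg (y + 1)), mul_nonneg (sub_nonneg.mpr hxy) (sq_nonneg (x - y))]

/-- upper bound for the logarithm -/
theorem neg_log_le {y : ℝ} (h0 : 0 ≤ y) (h1 : y ≤ 1 / 4) :
    -Real.log (1 - y) ≤ y + y ^ 2 / 2 + y ^ 3 / 3 + y ^ 4 / 3 := by
  have hs := Real.hasSum_pow_div_log_of_abs_lt_one (x := y) (by rw [abs_of_nonneg h0]; linarith)
  have hs' := (hasSum_nat_add_iff' 3).mpr hs
  have hg : HasSum (fun n : ℕ => y ^ 4 / 4 * y ^ n) (y ^ 4 / 4 * (1 - y)⁻¹) :=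
    (hasSum_geometric_of_lt_one h0 (by linarith)).mul_left _
  have hle := hasSum_le (fun n => ?_) hs' hg
  · simp only [Finset.sum_range_succ, Finset.sum_range_zero] at hle
    have h3 : y ^ 4 / 4 * (1 - y)⁻¹ ≤ y ^ 4 / 3 := by
      have : (1 - y)⁻¹ ≤ 4 / 3 := by
        rw [inv_le_comm₀ (by linarith) (by norm_num)]; linarith
      have h4 : 0 ≤ y ^ 4 / 4 := by positivity
      nlinarith
    norm_num at hle
    linarith
  · push_cast
    rw [div_mul_eq_mul_div, ← pow_add]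
    have : y ^ (n + 3 + 1) = y ^ (4 + n) := by ring_nf
    rw [this]
    apply div_le_div_of_nonneg_left (by positivity) (by norm_num)
    have : (0 : ℝ) ≤ n := Nat.cast_nonneg n
    linarith

/-- lower bound for `log ((M + 1/2) / (M - 1/2))` -/
theorem log_ratio_ge {M : ℝ} (hM : 1 ≤ M) :
    1 / M + 1 / (12 * M ^ 3) ≤ Real.log (M + 1 / 2) - Real.log (M - 1 / 2) := by
  have hx : |1 / (2 * M)| < 1 := by
    rw [abs_of_pos (by positivity)]
    rw [div_lt_one (by positivity)]; linarith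
  have hs := Real.hasSum_log_sub_log_of_abs_lt_one hx
  have h2 := sum_le_hasSum (Finset.range 2) (fun i _ => by positivity) hs
  simp only [Finset.sum_range_succ, Finset.sum_range_zero] at h2
  have e1 : Real.log (1 + 1 / (2 * M)) - Real.log (1 - 1 / (2 * M)) =
      Real.log (M + 1 / 2) - Real.log (M - 1 / 2) := by
    have hMp : (0 : ℝ) < M := by linarith
    have a : 1 + 1 / (2 * M) = (M + 1 / 2) / M := by field_simp
    have b : 1 - 1 / (2 * M) = (M - 1 / 2) / M := by field_simp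
    rw [a, b, Real.log_div (by positivity) hMp.ne', Real.log_div (by linarith : M - 1/2 ≠ 0) hMp.ne']
    ring
  rw [e1] at h2
  refine le_trans (le_of_eq ?_) h2
  norm_num
  have hMp : (0 : ℝ) < M := by linarith
  field_simp
  ring

end Pool.Agent.V5helper53.ErdosPowers
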